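import Mathlib
import Pool.Agent.H892.KT.Stm

set_option autoImplicit false

/-! Project KT (helper892): transition for one identification. -/

open Filter Topology Set
open scoped Manifold ContDiff

namespace Pool.Agent.H387.KT

open Pool.Agent.H892.KT

theorem ev_of {X : Type} [TopologicalSpace X] [ChartedSpace (ℂ × ℂ) X] (q : ℂ × ℂ → X) (y : ℂ × ℂ)
    (hq : IsLocalDiffeomorphAt 𝓘(ℂ, ℂ × ℂ) 𝓘(ℂ, ℂ × ℂ) ω q y) (Q : X → Prop)
    (h : ∀ᶠ y1 in 𝓝 y, Q (q y1)) : ∀ᶠ x in 𝓝 (q y), Q x := by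
  have hc : ContinuousAt hq.localInverse (q y) := hq.localInverse_contMDiffAt.continuousAt
  have h0 : hq.localInverse (q y) = y := hq.localInverse_left_inv hq.localInverse_mem_target
  have hc' : Tendsto hq.localInverse (𝓝 (q y)) (𝓝 y) := by
    have := hc.tendsto
    rwa [h0] at this
  have h1 : ∀ᶠ x in 𝓝 (q y), Q (q (hq.localInverse x)) := hc'.eventually h
  filter_upwards [h1, hq.localInverse_eventuallyEq_right] with x h2 h3
  have h4 : q (hq.localInverse x) = x := h3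
  rwa [h4] at h2

theorem aux (x y z : ℂ) (h : y ≠ 0) : x / y * (z * y) = x * z := by
  field_simp

theorem bA_hat (p v : ℂ × ℂ) (hb : p.2 ≠ 0) (h : 1 + v.2 / p.2 ≠ 0) : bA (hat p v) = bA p + v := by
  unfold bA hat
  ext
  · simp only [Prod.fst_add]
    rw [aux _ _ _ h]
    field_simp
  · simp only [Prod.snd_add]
    field_simp

theorem bK_hat (w : ℂ × ℂ → ℂ × ℂ) (p : ℂ × ℂ) (ha : p.1 ≠ 0) (hb : p.2 ≠ 0)
    (h : 1 + (w (bA p)).2 / p.2 ≠ 0) : hatB w (bK p) = bK (hat p (w (bA p))) := by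
  have hz : bB (bK p) = bA p := by
    unfold bB bK bA
    ext
    · rfl
    · simp only
      field_simp
  unfold hatB
  rw [hz]
  set v := w (bA p) with hv
  unfold bK hat
  ext
  · simp only
    rw [aux _ _ _ h]
    field_simp
  · simp only
    have e1 : p.1⁻¹ + v.2 / (p.1 * p.2) = (p.2 + v.2) / (p.1 * p.2) := by
      field_simp
    have e2 : 1 + v.1 / (p.1 * p.2) = (p.1 * p.2 + v.1) / (p.1 * p.2) := by
      field_simp
    have e3 : p.1 + v.1 / p.2 = (p.1 * p.2 + v.1) / p.2 := by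
      field_simp
    have e4 : 1 + v.2 / p.2 = (p.2 + v.2) / p.2 := by
      field_simp
    rw [e1, e2, e3, e4, inv_div, div_div_div_cancel_right₀ (mul_ne_zero ha hb),
      div_div_div_cancel_right₀ hb]

theorem hatB_zero (w : ℂ × ℂ → ℂ × ℂ) (hw : w 0 = 0) (p : ℂ × ℂ) (hb : p.2 = 0) :
    hatB w (bK p) = (0, p.1⁻¹) ∧ hat p (w (bA p)) = (p.1, 0) := by
  have hz : bB (bK p) = 0 := by
    unfold bB bK
    ext
    · simp [hb]
    · simp [hb]
  have hz' : bA p = 0 := by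
    unfold bA
    ext
    · simp [hb]
    · simp [hb]
  unfold hatB hat
  rw [hz, hz', hw]
  constructor
  · ext
    · simp [bK, hb]
    · simp [bK]
  · ext
    · simp
    · simp [hb]

theorem small_of {n : ℕ} {K : KatoData n} (D : ConjData K) (i : ZMod n) (y : ℂ × ℂ)
    (hy : y ∈ D.V i) (hb : (K.σ i y).2 ≠ 0) :
    1 + (D.w (i + 1) (bA (K.σ i y))).2 / (K.σ i y).2 ≠ 0 := by
  set p := K.σ i y with hp
  have h1 := D.norm_le i y hy
  have h2 := D.maps i y hy
  have h3 := D.small (i + 1) _ h2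
  have h4 := D.w_le (i + 1) (bA p) (by rw [mem_ball_zero_iff]; exact h3)
  have ha : ‖p.1‖ ≤ 1 := (norm_fst_le p).trans h1
  have hn : ‖bA p‖ = ‖p.2‖ := by
    unfold bA
    rw [Prod.norm_def]
    simp only
    rw [norm_mul]
    exact max_eq_right (mul_le_of_le_one_left (norm_nonneg _) ha)
  rw [hn] at h3 h4
  have hr := D.r_le
  have hpos : 0 < ‖p.2‖ := norm_pos_iff.2 hb
  have h5 : ‖(D.w (i + 1) (bA p)).2‖ ≤ ‖p.2‖ ^ 3 := (norm_snd_le _).trans h4
  intro h6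
  have h7 : (D.w (i + 1) (bA p)).2 / p.2 = -1 := by
    linear_combination h6
  have h8 : ‖(D.w (i + 1) (bA p)).2 / p.2‖ = 1 := by
    rw [h7, norm_neg, norm_one]
  rw [norm_div, div_eq_one_iff_eq hpos.ne'] at h8
  rw [h8] at h5
  have h9 : ‖p.2‖ ^ 3 < ‖p.2‖ ^ 1 :=
    pow_lt_pow_right_of_lt_one₀ hpos (by linarith) (by norm_num)
  rw [pow_one] at h9
  linarith

theorem w_zero {n : ℕ} {K : KatoData n} (D : ConjData K) (i : ZMod n) : D.w i 0 = 0 := by
  have h := D.w_le i 0 (by rw [mem_ball_zero_iff, norm_zero]; exact D.r_pos)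
  rw [norm_zero] at h
  have h2 : ‖D.w i 0‖ ≤ 0 := by
    simpa using h
  exact norm_le_zero_iff.1 h2

theorem birAt_e {n : ℕ} {K : KatoData n} (D : ConjData K) (i : ZMod n) (y : ℂ × ℂ)
    (hy : y ∈ D.V i) : BirAt (D.e i) (y + D.w i y) :=
  ⟨D.e i, D.mem i y hy, Filter.Eventually.of_forall fun _ => rfl, (D.bg i).rat _ (D.mem i y hy),
    (D.bg i).rat' _ ((D.e i).map_source (D.mem i y hy))⟩

theorem cont_σ {n : ℕ} {K : KatoData n} (D : ConjData K) (i : ZMod n) (y : ℂ × ℂ)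
    (hy : y ∈ D.V i) : ContinuousAt (K.σ i) y :=
  ((K.diff i).differentiableAt ((K.isOpen_U i).mem_nhds (D.subU i hy))).continuousAt

theorem t_LINK (h1 : S_BIRBASIC) (h2 : S_BIRCOMP) : S_LINK := by
  intro n K D X _ _ _ π hπ r r' hr c c' hc hc'
  obtain ⟨b1, b2, b3, b4, b5⟩ := h1
  cases hr with
  | shift i y hy hb =>
    have hy0 : y ≠ 0 := by
      rintro rfl
      rw [K.map_zero i] at hb
      exact hb rfl
    have hcs := cont_σ D i y hy
    have hcA : ContinuousAt (fun y1 => bA (K.σ i y1)) y := by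
      unfold bA
      fun_prop
    refine ⟨fun q => bA (D.e i q), ?_, ?_⟩
    · apply h2 (D.e i) bA _ (birAt_e D i y hy)
      apply b1
      show (D.e i (y + D.w i y)).2 ≠ 0
      rw [D.eq i y hy]
      exact mul_ne_zero hb (small_of D i y hy hb)
    · have hq : IsLocalDiffeomorphAt 𝓘(ℂ, ℂ × ℂ) 𝓘(ℂ, ℂ × ℂ) ω (fun y => π (.P i y)) y :=
        hπ.locP i ⟨y, D.subU i hy, hy0⟩
      apply ev_of (fun y => π (.P i y)) y hq (fun x => c' x = bA (D.e i (c x)))
      have e1 : ∀ᶠ y1 in 𝓝 y, c (π (.P i y1)) = y1 + D.w i y1 := hc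
      have e2 : ∀ᶠ z in 𝓝 (bA (K.σ i y)), c' (π (.P (i + 1) z)) = z + D.w (i + 1) z := hc'
      have e3 := hcA.eventually e2
      have e4 : ∀ᶠ y1 in 𝓝 y, y1 ∈ D.V i := (D.isOpen_V i).mem_nhds hy
      have e5 : ∀ᶠ y1 in 𝓝 y, y1 ≠ 0 := isOpen_ne.mem_nhds hy0
      have e6 : ∀ᶠ y1 in 𝓝 y, (K.σ i y1).2 ≠ 0 := by
        have : ContinuousAt (fun y1 => (K.σ i y1).2) y := hcs.snd
        exact this.eventually (isOpen_ne.mem_nhds hb)
      filter_upwards [e1, e3, e4, e5, e6] with y1 f1 f3 f4 f5 f6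
      have hmem1 : Pt.P i y1 ∈ K.dom := ⟨D.subU i f4, f5⟩
      have hmem2 : Pt.P (i + 1) (bA (K.σ i y1)) ∈ K.dom := by
        refine ⟨D.subU _ (D.maps i y1 f4), ?_⟩
        intro h
        exact f6 (congrArg Prod.snd h)
      have hπe : π (.P i y1) = π (.P (i + 1) (bA (K.σ i y1))) :=
        (hπ.fibre _ hmem1 _ hmem2).2 (Relation.EqvGen.rel _ _
          (KatoData.Glue.shift i y1 (D.subU i f4) f6))
      rw [f1, D.eq i y1 f4, bA_hat _ _ f6 (small_of D i y1 f4 f6), hπe]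
      exact f3
  | exc i y hy ha hb =>
    have hy0 : y ≠ 0 := by
      rintro rfl
      rw [K.map_zero i] at ha
      exact ha rfl
    have hcs := cont_σ D i y hy
    have hcK : ContinuousAt (fun y1 => bK (K.σ i y1)) y := by
      unfold bK
      exact (hcs.fst.mul hcs.snd).prodMk (hcs.fst.inv₀ ha)
    have hyK : bK (K.σ i y) = (0, (K.σ i y).1⁻¹) := by
      unfold bK
      rw [hb, mul_zero]
    refine ⟨fun q => bK (D.e i q), ?_, ?_⟩
    · apply h2 (D.e i) bK _ (birAt_e D i y hy)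
      apply b4
      show (D.e i (y + D.w i y)).1 ≠ 0
      rw [D.eq i y hy, (hatB_zero _ (w_zero D (i + 1)) _ hb).2]
      exact ha
    · have hq : IsLocalDiffeomorphAt 𝓘(ℂ, ℂ × ℂ) 𝓘(ℂ, ℂ × ℂ) ω (fun y => π (.P i y)) y :=
        hπ.locP i ⟨y, D.subU i hy, hy0⟩
      apply ev_of (fun y => π (.P i y)) y hq (fun x => c' x = bK (D.e i (c x)))
      have e1 : ∀ᶠ y1 in 𝓝 y, c (π (.P i y1)) = y1 + D.w i y1 := hc
      have e2 : ∀ᶠ z in 𝓝 ((0 : ℂ), (K.σ i y).1⁻¹), c' (π (.R (i + 1) z)) = hatB (D.w (i + 1)) z := hc'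
      rw [← hyK] at e2
      have e3 := hcK.eventually e2
      have e4 : ∀ᶠ y1 in 𝓝 y, y1 ∈ D.V i := (D.isOpen_V i).mem_nhds hy
      have e5 : ∀ᶠ y1 in 𝓝 y, y1 ≠ 0 := isOpen_ne.mem_nhds hy0
      have e6 : ∀ᶠ y1 in 𝓝 y, (K.σ i y1).1 ≠ 0 := by
        have : ContinuousAt (fun y1 => (K.σ i y1).1) y := hcs.fst
        exact this.eventually (isOpen_ne.mem_nhds ha)
      filter_upwards [e1, e3, e4, e5, e6] with y1 f1 f3 f4 f5 f6
      have hmem1 : Pt.P i y1 ∈ K.dom := ⟨D.subU i f4, f5⟩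
      have hBK : bB (bK (K.σ i y1)) = bA (K.σ i y1) := by
        unfold bB bK bA
        ext
        · rfl
        · simp only
          field_simp
      have hmem2 : Pt.R (i + 1) (bK (K.σ i y1)) ∈ K.dom := by
        show bB (bK (K.σ i y1)) ∈ K.U (i + 1)
        rw [hBK]
        exact D.subU _ (D.maps i y1 f4)
      have hπe : π (.P i y1) = π (.R (i + 1) (bK (K.σ i y1))) :=
        (hπ.fibre _ hmem1 _ hmem2).2 (Relation.EqvGen.rel _ _
          (KatoData.Glue.exc i y1 (D.subU i f4) f6))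
      rw [f1, D.eq i y1 f4, hπe, f3]
      by_cases hb1 : (K.σ i y1).2 = 0
      · obtain ⟨g1, g2⟩ := hatB_zero _ (w_zero D (i + 1)) (K.σ i y1) hb1
        rw [g1, g2]
        unfold bK
        simp
      · exact bK_hat _ _ f6 hb1 (small_of D i y1 f4 hb1)

end Pool.Agent.H387.KT
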